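import Pool.Agent.Q225.GH.Stm

/-!
# With a certificate the second cover has more homomorphisms
-/

set_option autoImplicit false

namespace Pool.Agent.Q247.GH

open Finset Pool.Agent.Q225.GH

/-- the solutions of the equations of the cover over `φ` -/
def Sol {U : Type} (B : Base U) (β : U → U → ZMod 2) {W : Type} (F : SimpleGraph W) (φ : W → U) :
    Type :=
  {s : (a : W) → B.I (φ a) → ZMod 2 // ∀ a b, F.Adj a b → B.G.Adj (φ a) (φ b) ∧
    B.ev (φ a) (φ b) (s a) + B.ev (φ b) (φ a) (s b) = β (φ a) (φ b) + β (φ b) (φ a)}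

/-- homomorphisms to the cover are pairs of a map to the base and a solution over it -/
def homEquiv {U : Type} (B : Base U) (β : U → U → ZMod 2) {W : Type} (F : SimpleGraph W) :
    (F →g B.cover β) ≃ (Σ φ : W → U, Sol B β F φ) where
  toFun f := ⟨fun a => (f a).1, fun a => (f a).2, fun _ _ h => f.map_rel h⟩
  invFun p := ⟨fun a => ⟨p.1 a, p.2.1 a⟩, fun {a b} h => p.2.2 a b h⟩
  left_inv _ := rfl
  right_inv _ := rfl

theorem ev_add {U : Type} (B : Base U) (u w : U) (s s' : B.I u → ZMod 2) :
    B.ev u w (s + s') = B.ev u w s + B.ev u w s' := by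
  unfold Base.ev
  rw [← Finset.sum_add_distrib]
  exact Finset.sum_congr rfl fun i _ => by rw [Pi.add_apply, mul_add]

theorem ev_zero {U : Type} (B : Base U) (u w : U) : B.ev u w 0 = 0 := by
  unfold Base.ev
  simp

theorem two_zero (x : ZMod 2) : x + x = 0 := CharTwo.add_self_eq_zero x

section

variable {U : Type} [Fintype U] [DecidableEq U] (B : Base U) (β : U → U → ZMod 2)
  {W : Type} [Fintype W] [DecidableEq W] (F : SimpleGraph W)

instance (φ : W → U) : Finite (Sol B β F φ) := by
  unfold Sol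
  infer_instance

theorem card_eq : Nat.card (F →g B.cover β) = ∑ φ : W → U, Nat.card (Sol B β F φ) := by
  rw [Nat.card_congr (homEquiv B β F), Nat.card_sigma]

theorem card_le (φ : W → U) : Nat.card (Sol B β F φ) ≤ Nat.card (Sol B 0 F φ) := by
  rcases isEmpty_or_nonempty (Sol B β F φ) with h | h
  · rw [Nat.card_of_isEmpty]
    exact Nat.zero_le _
  · obtain ⟨s0⟩ := h
    refine Nat.card_le_card_of_injective (fun s => ⟨fun a => s.1 a + s0.1 a, ?_⟩) ?_
    · intro a b hab
      obtain ⟨h1, h2⟩ := s.2 a b hab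
      obtain ⟨-, h3⟩ := s0.2 a b hab
      refine ⟨h1, ?_⟩
      rw [ev_add, ev_add]
      have h4 := two_zero (β (φ a) (φ b) + β (φ b) (φ a))
      simp only [Pi.zero_apply, add_zero]
      linear_combination h2 + h3 + h4
    · intro s s' h
      apply Subtype.ext
      funext a
      have h1 := congrFun (congrArg Subtype.val h) a
      exact add_right_cancel h1

theorem isEmpty_of_cert {φ : W → U} {t : W → W → ZMod 2} (hc : Cert B β F φ t) :
    IsEmpty (Sol B β F φ) := by
  refine ⟨fun s => ?_⟩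
  -- the sum of the functionals vanishes
  have h0 : ∑ a, ∑ b, t a b * B.ev (φ a) (φ b) (s.1 a) = 0 := by
    refine Finset.sum_eq_zero fun a _ => ?_
    have h1 : ∑ b, t a b * B.ev (φ a) (φ b) (s.1 a) =
        ∑ i, (∑ b, t a b * B.lam (φ a) (φ b) i) * s.1 a i := by
      unfold Base.ev
      simp only [Finset.mul_sum, Finset.sum_mul]
      rw [Finset.sum_comm]
      exact Finset.sum_congr rfl fun i _ => Finset.sum_congr rfl fun b _ => by ring
    rw [h1]
    exact Finset.sum_eq_zero fun i _ => by rw [hc.van a i, zero_mul]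
  have h1 : ∑ a, ∑ b, t a b * (B.ev (φ a) (φ b) (s.1 a) + β (φ a) (φ b)) = 1 := by
    simp only [mul_add, Finset.sum_add_distrib]
    rw [h0, hc.odd, zero_add]
  have h2 : ∑ a, ∑ b, t a b * (B.ev (φ a) (φ b) (s.1 a) + β (φ a) (φ b)) = 0 := by
    rw [← Finset.sum_product']
    refine Finset.sum_involution (fun p _ => (p.2, p.1)) ?_ ?_ ?_ ?_
    · rintro ⟨a, b⟩ _
      simp only
      by_cases ht : t a b = 0
      · rw [hc.symm b a, ht, zero_mul, zero_mul, add_zero]
      · obtain ⟨-, h3⟩ := s.2 a b (hc.supp a b ht)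
        rw [hc.symm b a]
        have h4 := two_zero (β (φ a) (φ b) + β (φ b) (φ a))
        linear_combination t a b * h3 + t a b * h4
    · rintro ⟨a, b⟩ _ hne heq
      simp only [Prod.mk.injEq] at heq
      obtain ⟨h3, -⟩ := heq
      subst h3
      apply hne
      by_cases ht : t b b = 0
      · simp only
        rw [ht, zero_mul]
      · exact absurd (hc.supp b b ht) (F.loopless.irrefl b)
    · intro p _
      exact Finset.mem_product.2 ⟨Finset.mem_univ _, Finset.mem_univ _⟩
    · intro p _
      rfl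
  rw [h1] at h2
  exact one_ne_zero h2

end

theorem t_CERT : S_CERT := by
  intro U _ _ B β W _ _ F ⟨φ, t, hc⟩
  rw [card_eq, card_eq]
  refine Finset.sum_lt_sum (fun φ _ => card_le B β F φ) ⟨φ, Finset.mem_univ _, ?_⟩
  haveI := isEmpty_of_cert B β F hc
  rw [Nat.card_of_isEmpty]
  haveI : Nonempty (Sol B 0 F φ) := ⟨⟨fun a => 0, fun a b hab => ⟨hc.adj a b hab, by
    rw [ev_zero, ev_zero]; rfl⟩⟩⟩
  exact Nat.card_pos

end Pool.Agent.Q247.GH
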